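import Pool.Agent.helper16.PU.Spec2

/-!
# Project PU (MP_2e0e07_nt), row ITW
-/

set_option autoImplicit false

namespace Pool.Agent.PU

open Matrix Polynomial Pool.Agent.GO Pool.Agent.AR Pool.Agent.RG Pool.Agent.HZ Pool.Agent.DS
  Pool.Agent.AX MeasureTheory NumberField

theorem ITW (hRSZ : RSZ_stmt) (hLFT : LFT_stmt) : ITW_stmt := by
  intro p _ hp5 Γ _ _ _ _ F κ _ _ _ _ _ _ red hred ρ S hρ hρ1 hS hSo hbig Z hZn hZc hZ
  obtain ⟨h1, h2, h3⟩ := hRSZ p hp5 Γ κ S hSo hbig Z hZn hZ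
  have hl := hLFT p (by omega) Γ F κ red hred ρ S hρ hρ1 hS Z hZn hZc h3
  have hle : adKer ρ ≤ adKer S := by
    rintro g ⟨c, hc⟩
    refine ⟨red c, ?_⟩
    have h0 : red 0 = 0 := (hred.zero_iff 0 (by simp)).2 (by simp)
    rw [hS, hc]
    ext a b
    fin_cases a <;> fin_cases b
    · simp
    · simp [h0]
    · simp [h0]
    · simp
  have heq : Z ⊔ adKer ρ = Z ⊔ adKer S :=
    le_antisymm (sup_le_sup_left hle _) (sup_le le_sup_left hl)
  rw [heq]
  exact ⟨h1, h2⟩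

end Pool.Agent.PU
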